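import Pool.Agent.Y570.SO.Main

/-!
# MP_cb1103_lc: local characterizations do not give single orbit characterizations of
locality bounded in terms of the locality and the field

Negative answer to Q1 and to Q2. For every finite field `F` of `q` elements and every `K` of
degree `t` over `F`, with at least `2n` distinct primes dividing `t`, there is an
affine-invariant property of functions `K → F` with a `25 ^ r`-local characterization, all of
whose single orbit characterizations have locality at least `n.choose r`.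
-/

namespace Pool.Agent.Results.MP_cb1103_lc.LocalNotSingleOrbit

open Pool.Agent.Y570.SO

/-- the quantitative lower bound -/
theorem quant (F K : Type) [Field F] [Finite F] [Field K] [Finite K] [Algebra F K] (n r : ℕ)
    (hr : 0 < r) (hrn : r ≤ n) (ht : 2 * n ≤ (Module.finrank F K).primeFactors.card) :
    ∃ P : Submodule F (K → F), AffineInvariant P ∧ HasLocalChar (25 ^ r) P ∧
      (∃ k, HasSingleOrbitChar k P) ∧ n.choose r ≤ orbitLocality P := by
  obtain ⟨P, h1, h2, h3, h4⟩ := main (F := F) (K := K) n r hr hrn ht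
  exact ⟨P, h1, h2, h3, le_csInf h3 fun k hk => h4 k hk⟩

/-- unboundedness over every finite field -/
theorem unbounded (F : Type) [Field F] [Finite F] (B : ℕ) :
    ∃ (K : Type) (_ : Field K) (_ : Finite K) (_ : Algebra F K) (P : Submodule F (K → F)),
      AffineInvariant P ∧ HasLocalChar 25 P ∧ (∃ k, HasSingleOrbitChar k P) ∧
      B < orbitLocality P := by
  obtain ⟨p, hp⟩ := CharP.exists F
  have hprime : p.Prime := CharP.char_is_prime F p
  have : Fact p.Prime := ⟨hprime⟩
  obtain ⟨S, hS1, hS2⟩ := Nat.infinite_setOfPred_prime.exists_subset_card_eq (2 * (B + 1))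
  have hSp : ∀ s ∈ S, s.Prime := fun s hs => hS1 hs
  have ht : (∏ s ∈ S, s) ≠ 0 := Finset.prod_ne_zero_iff.2 fun s hs => (hSp s hs).ne_zero
  have : NeZero (∏ s ∈ S, s) := ⟨ht⟩
  have hfin : Module.finrank F (FiniteField.Extension F p (∏ s ∈ S, s)) = ∏ s ∈ S, s :=
    FiniteField.finrank_extension F p _
  obtain ⟨P, h1, h2, h3, h4⟩ := quant F (FiniteField.Extension F p (∏ s ∈ S, s)) (B + 1) 1
    one_pos (by omega) (by rw [hfin, Nat.primeFactors_prod hSp, hS2])
  refine ⟨_, inferInstance, inferInstance, inferInstance, P, h1, by simpa using h2, h3, ?_⟩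
  rw [Nat.choose_one_right] at h4
  omega

/-- **Q1 and Q2 have negative answers.** -/
theorem result :
    (∀ (F K : Type) [Field F] [Finite F] [Field K] [Finite K] [Algebra F K] (n r : ℕ),
      0 < r → r ≤ n → 2 * n ≤ (Module.finrank F K).primeFactors.card →
      ∃ P : Submodule F (K → F), AffineInvariant P ∧ HasLocalChar (25 ^ r) P ∧
        (∃ k, HasSingleOrbitChar k P) ∧ n.choose r ≤ orbitLocality P) ∧
    (∀ (F : Type) [Field F] [Finite F] (B : ℕ),
      ∃ (K : Type) (_ : Field K) (_ : Finite K) (_ : Algebra F K) (P : Submodule F (K → F)),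
        AffineInvariant P ∧ HasLocalChar 25 P ∧ (∃ k, HasSingleOrbitChar k P) ∧
        B < orbitLocality P) ∧
    (¬ ∃ g : ℕ → ℕ → ℕ, ∀ (F K : Type) [Field F] [Finite F] [Field K] [Finite K] [Algebra F K]
      (k : ℕ) (P : Submodule F (K → F)), AffineInvariant P → HasLocalChar k P →
      (∃ k', HasSingleOrbitChar k' P) → orbitLocality P ≤ g k (Nat.card F)) ∧
    (¬ ∃ g : ℕ → ℕ, ∀ (F K : Type) [Field F] [Finite F] [Field K] [Finite K] [Algebra F K]
      (k : ℕ) (P : Submodule F (K → F)), AffineInvariant P → HasLocalChar k P →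
      (∃ k', HasSingleOrbitChar k' P) → orbitLocality P ≤ g k) := by
  have hQ1 : ¬ ∃ g : ℕ → ℕ → ℕ, ∀ (F K : Type) [Field F] [Finite F] [Field K] [Finite K]
      [Algebra F K] (k : ℕ) (P : Submodule F (K → F)), AffineInvariant P → HasLocalChar k P →
      (∃ k', HasSingleOrbitChar k' P) → orbitLocality P ≤ g k (Nat.card F) := by
    rintro ⟨g, hg⟩
    have : Fact (Nat.Prime 2) := ⟨Nat.prime_two⟩
    obtain ⟨K, _, _, _, P, h1, h2, h3, h4⟩ := unbounded (ZMod 2) (g 25 (Nat.card (ZMod 2)))
    exact absurd (hg (ZMod 2) K 25 P h1 h2 h3) (not_le.2 h4)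
  refine ⟨fun F K _ _ _ _ _ n r hr hrn ht => quant F K n r hr hrn ht,
    fun F _ _ B => unbounded F B, hQ1, ?_⟩
  rintro ⟨g, hg⟩
  exact hQ1 ⟨fun k _ => g k, fun F K _ _ _ _ _ k P h1 h2 h3 => hg F K k P h1 h2 h3⟩

end Pool.Agent.Results.MP_cb1103_lc.LocalNotSingleOrbit
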